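import Mathlib

set_option autoImplicit false

namespace Pool.Agent.MP_9d12fbd9_an

/-- Potential at `x` of charges `1/N` placed at `Z 0, …, Z (N-1)`. -/
noncomputable def potential {N : ℕ} (Z : Fin N → EuclideanSpace ℝ (Fin 3))
    (x : EuclideanSpace ℝ (Fin 3)) : ℝ :=
  (1 / (N : ℝ)) * ∑ j, 1 / ‖Z j - x‖

/-- The electrostatic field, minus the gradient of the potential. -/
noncomputable def field {N : ℕ} (Z : Fin N → EuclideanSpace ℝ (Fin 3))
    (x : EuclideanSpace ℝ (Fin 3)) : EuclideanSpace ℝ (Fin 3) :=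
  - gradient (potential Z) x

/-- Smallest possible maximal field strength on the sphere of radius `r`, over all `N`-tuples
of points of the unit sphere. -/
noncomputable def Phi (N : ℕ) (r : ℝ) : ℝ :=
  ⨅ Z : Fin N → Metric.sphere (0 : EuclideanSpace ℝ (Fin 3)) 1,
    ⨆ x : Metric.sphere (0 : EuclideanSpace ℝ (Fin 3)) r,
      ‖field (fun j => (Z j : EuclideanSpace ℝ (Fin 3))) x‖

end Pool.Agent.MP_9d12fbd9_an
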