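import Mathlib

set_option autoImplicit false

namespace Pool.Agent.MP_9d12fbd9_an

open MvPolynomial

/-- Factorial weight of a multi-index. -/
noncomputable def wt (m : Fin 3 →₀ ℕ) : ℝ := ∏ i, ((m i).factorial : ℝ)

lemma wt_pos (m : Fin 3 →₀ ℕ) : 0 < wt m :=
  Finset.prod_pos fun i _ => by exact_mod_cast Nat.factorial_pos _

lemma wt_add_single (m : Fin 3 →₀ ℕ) (i : Fin 3) :
    wt (m + Finsupp.single i 1) = wt m * (m i + 1) := by
  unfold wt
  rw [← Finset.mul_prod_erase Finset.univ _ (Finset.mem_univ i),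
    ← Finset.mul_prod_erase Finset.univ (fun j => ((m j).factorial : ℝ)) (Finset.mem_univ i)]
  have h1 : ∏ x ∈ Finset.univ.erase i,
        (((m + Finsupp.single i 1 : Fin 3 →₀ ℕ) x).factorial : ℝ)
      = ∏ x ∈ Finset.univ.erase i, ((m x).factorial : ℝ) := by
    apply Finset.prod_congr rfl
    intro x hx
    have : x ≠ i := (Finset.mem_erase.mp hx).1
    simp [this.symm]
  rw [h1]
  have h2 : (m + Finsupp.single i 1 : Fin 3 →₀ ℕ) i = m i + 1 := by simp
  rw [h2, Nat.factorial_succ]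
  push_cast
  ring

/-- Fischer inner product of two real polynomials in three variables. -/
noncomputable def B (p q : MvPolynomial (Fin 3) ℝ) : ℝ :=
  ∑ m ∈ p.support, wt m * coeff m p * coeff m q

lemma B_eq_sum {p q : MvPolynomial (Fin 3) ℝ} (S : Finset (Fin 3 →₀ ℕ)) (h : p.support ⊆ S) :
    B p q = ∑ m ∈ S, wt m * coeff m p * coeff m q := by
  unfold B
  apply Finset.sum_subset h
  intro m _ hm
  rw [notMem_support_iff.mp hm]
  ring

lemma B_symm (p q : MvPolynomial (Fin 3) ℝ) : B p q = B q p := by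
  rw [B_eq_sum (p.support ∪ q.support) Finset.subset_union_left,
    B_eq_sum (p.support ∪ q.support) Finset.subset_union_right]
  apply Finset.sum_congr rfl
  intro m _
  ring

lemma B_add_left (p p' q : MvPolynomial (Fin 3) ℝ) : B (p + p') q = B p q + B p' q := by
  rw [B_eq_sum (p := p + p') (p.support ∪ p'.support) (support_add),
    B_eq_sum (p := p) (p.support ∪ p'.support) Finset.subset_union_left,
    B_eq_sum (p := p') (p.support ∪ p'.support) Finset.subset_union_right,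
    ← Finset.sum_add_distrib]
  apply Finset.sum_congr rfl
  intro m _
  rw [coeff_add]
  ring

lemma B_add_right (p q q' : MvPolynomial (Fin 3) ℝ) : B p (q + q') = B p q + B p q' := by
  rw [B_symm, B_add_left, B_symm q, B_symm q']

lemma B_C_mul_left (a : ℝ) (p q : MvPolynomial (Fin 3) ℝ) : B (C a * p) q = a * B p q := by
  have h : (C a * p).support ⊆ p.support := by
    intro m hm
    rw [mem_support_iff, coeff_C_mul] at hm
    rw [mem_support_iff]
    intro h0
    apply hm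
    rw [h0, mul_zero]
  rw [B_eq_sum p.support h]
  unfold B
  rw [Finset.mul_sum]
  apply Finset.sum_congr rfl
  intro m _
  rw [coeff_C_mul]
  ring

lemma B_C_mul_right (a : ℝ) (p q : MvPolynomial (Fin 3) ℝ) : B p (C a * q) = a * B p q := by
  rw [B_symm, B_C_mul_left, B_symm q]

lemma B_zero_left (q : MvPolynomial (Fin 3) ℝ) : B 0 q = 0 := by
  unfold B; simp

lemma B_zero_right (q : MvPolynomial (Fin 3) ℝ) : B q 0 = 0 := by
  unfold B; simp

lemma B_sum_left {ι : Type*} (s : Finset ι) (f : ι → MvPolynomial (Fin 3) ℝ)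
    (q : MvPolynomial (Fin 3) ℝ) : B (∑ i ∈ s, f i) q = ∑ i ∈ s, B (f i) q := by
  classical
  induction s using Finset.induction_on with
  | empty => simp [B_zero_left]
  | insert a s ha ih => rw [Finset.sum_insert ha, Finset.sum_insert ha, B_add_left, ih]

lemma B_sum_right {ι : Type*} (s : Finset ι) (f : ι → MvPolynomial (Fin 3) ℝ)
    (q : MvPolynomial (Fin 3) ℝ) : B q (∑ i ∈ s, f i) = ∑ i ∈ s, B q (f i) := by
  rw [B_symm, B_sum_left]
  apply Finset.sum_congr rfl
  intro i _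
  rw [B_symm]

lemma B_self_nonneg (p : MvPolynomial (Fin 3) ℝ) : 0 ≤ B p p := by
  unfold B
  apply Finset.sum_nonneg
  intro m _
  have := (wt_pos m).le
  have h2 : 0 ≤ coeff m p * coeff m p := mul_self_nonneg _
  calc (0:ℝ) ≤ wt m * (coeff m p * coeff m p) := mul_nonneg this h2
    _ = wt m * coeff m p * coeff m p := by ring

lemma B_monomial (m : Fin 3 →₀ ℕ) (a : ℝ) (q : MvPolynomial (Fin 3) ℝ) :
    B (monomial m a) q = wt m * a * coeff m q := by
  classical
  rw [B_eq_sum {m} (by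
    intro x hx
    exact support_monomial_subset hx)]
  simp

lemma B_X_mul (i : Fin 3) (p q : MvPolynomial (Fin 3) ℝ) :
    B (X i * p) q = B p (pderiv i q) := by
  induction p using MvPolynomial.induction_on' with
  | monomial m a =>
    rw [B_monomial, coeff_pderiv]
    have : (X i * monomial m a : MvPolynomial (Fin 3) ℝ) = monomial (m + Finsupp.single i 1) a := by
      rw [X, monomial_mul]
      rw [one_mul, add_comm]
    rw [this, B_monomial, wt_add_single]
    ring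
  | add p p' hp hp' =>
    rw [mul_add, B_add_left, B_add_left, hp, hp']

/-- The linear form with coefficient vector `y`. -/
noncomputable def Lf (y : Fin 3 → ℝ) : MvPolynomial (Fin 3) ℝ := ∑ i, C (y i) * X i

/-- Sum of squares of the variables. -/
noncomputable def R2 : MvPolynomial (Fin 3) ℝ := ∑ i, X i * X i

/-- Directional derivative. -/
noncomputable def Dd (y : Fin 3 → ℝ) (q : MvPolynomial (Fin 3) ℝ) : MvPolynomial (Fin 3) ℝ :=
  ∑ i, C (y i) * pderiv i q

/-- Laplacian. -/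
noncomputable def Lap (q : MvPolynomial (Fin 3) ℝ) : MvPolynomial (Fin 3) ℝ :=
  ∑ i, pderiv i (pderiv i q)

/-- Squared Euclidean norm. -/
noncomputable def n2 (y : Fin 3 → ℝ) : ℝ := ∑ i, y i * y i

lemma B_Lf_mul (y : Fin 3 → ℝ) (p q : MvPolynomial (Fin 3) ℝ) :
    B (Lf y * p) q = B p (Dd y q) := by
  unfold Lf Dd
  rw [Finset.sum_mul, B_sum_left, B_sum_right]
  apply Finset.sum_congr rfl
  intro i _
  rw [mul_assoc, B_C_mul_left, B_C_mul_right, B_X_mul]

lemma B_R2_mul (p q : MvPolynomial (Fin 3) ℝ) :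
    B (R2 * p) q = B p (Lap q) := by
  unfold R2 Lap
  rw [Finset.sum_mul, B_sum_left, B_sum_right]
  apply Finset.sum_congr rfl
  intro i _
  rw [mul_assoc, B_X_mul, B_X_mul]

/-- Scaled zonal solid harmonics. -/
noncomputable def H (y : Fin 3 → ℝ) : ℕ → MvPolynomial (Fin 3) ℝ
  | 0 => 1
  | 1 => Lf y
  | (k + 2) => C (2 * (k:ℝ) + 3) * (Lf y * H y (k + 1))
      - C (((k:ℝ) + 1) ^ 2 * n2 y) * (R2 * H y k)

lemma Lf_hom (y : Fin 3 → ℝ) : (Lf y).IsHomogeneous 1 := by
  unfold Lf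
  apply IsHomogeneous.sum
  intro i _
  simpa using (isHomogeneous_C (Fin 3) (y i)).mul (isHomogeneous_X ℝ i)

lemma R2_hom : R2.IsHomogeneous 2 := by
  unfold R2
  apply IsHomogeneous.sum
  intro i _
  exact (isHomogeneous_X ℝ i).mul (isHomogeneous_X ℝ i)

lemma H_hom (y : Fin 3 → ℝ) : ∀ k, (H y k).IsHomogeneous k
  | 0 => by
    unfold H
    exact isHomogeneous_one _ _
  | 1 => by
    unfold H
    exact Lf_hom y
  | (k + 2) => by
    unfold H
    apply IsHomogeneous.sub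
    · have := (isHomogeneous_C (Fin 3) (2 * (k:ℝ) + 3)).mul ((Lf_hom y).mul (H_hom y (k+1)))
      have e : 0 + (1 + (k + 1)) = k + 2 := by ring
      rwa [e] at this
    · have := (isHomogeneous_C (Fin 3) (((k:ℝ) + 1) ^ 2 * n2 y)).mul (R2_hom.mul (H_hom y k))
      have e : 0 + (2 + k) = k + 2 := by ring
      rwa [e] at this

lemma pderiv_Lf (y : Fin 3 → ℝ) (i : Fin 3) : pderiv i (Lf y) = C (y i) := by
  unfold Lf
  simp only [map_sum, pderiv_C_mul]
  rw [Finset.sum_eq_single i]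
  · simp
  · intro j _ hj
    rw [pderiv_X_of_ne hj, mul_zero]
  · simp

lemma pderiv_R2 (i : Fin 3) : pderiv i R2 = 2 * X i := by
  unfold R2
  simp only [map_sum, pderiv_mul]
  rw [Finset.sum_eq_single i]
  · simp; ring
  · intro j _ hj
    rw [pderiv_X_of_ne hj]; ring
  · simp

lemma Dd_add (y : Fin 3 → ℝ) (p q : MvPolynomial (Fin 3) ℝ) : Dd y (p + q) = Dd y p + Dd y q := by
  unfold Dd
  simp only [map_add, mul_add, Finset.sum_add_distrib]

lemma Dd_sub (y : Fin 3 → ℝ) (p q : MvPolynomial (Fin 3) ℝ) : Dd y (p - q) = Dd y p - Dd y q := by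
  unfold Dd
  simp only [map_sub, mul_sub, Finset.sum_sub_distrib]

lemma Dd_C_mul (y : Fin 3 → ℝ) (a : ℝ) (q : MvPolynomial (Fin 3) ℝ) :
    Dd y (C a * q) = C a * Dd y q := by
  unfold Dd
  simp only [pderiv_C_mul, Finset.mul_sum]
  apply Finset.sum_congr rfl
  intro i _
  ring

lemma Dd_mul (y : Fin 3 → ℝ) (p q : MvPolynomial (Fin 3) ℝ) :
    Dd y (p * q) = Dd y p * q + p * Dd y q := by
  unfold Dd
  simp only [pderiv_mul, mul_add, Finset.sum_add_distrib, Finset.mul_sum, Finset.sum_mul]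
  congr 1
  · apply Finset.sum_congr rfl
    intro i _
    ring
  · apply Finset.sum_congr rfl
    intro i _
    ring

lemma Dd_Lf (y : Fin 3 → ℝ) : Dd y (Lf y) = C (n2 y) := by
  unfold Dd
  simp only [pderiv_Lf]
  unfold n2
  rw [map_sum]
  simp only [map_mul]

lemma Dd_R2 (y : Fin 3 → ℝ) : Dd y R2 = 2 * Lf y := by
  unfold Dd Lf
  simp only [pderiv_R2, Finset.mul_sum]
  apply Finset.sum_congr rfl
  intro i _
  ring

lemma Lap_add (p q : MvPolynomial (Fin 3) ℝ) : Lap (p + q) = Lap p + Lap q := by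
  unfold Lap
  simp only [map_add, Finset.sum_add_distrib]

lemma Lap_sub (p q : MvPolynomial (Fin 3) ℝ) : Lap (p - q) = Lap p - Lap q := by
  unfold Lap
  simp only [map_sub, Finset.sum_sub_distrib]

lemma Lap_C_mul (a : ℝ) (q : MvPolynomial (Fin 3) ℝ) : Lap (C a * q) = C a * Lap q := by
  unfold Lap
  simp only [pderiv_C_mul, Finset.mul_sum]

lemma Lap_Lf_mul (y : Fin 3 → ℝ) (q : MvPolynomial (Fin 3) ℝ) :
    Lap (Lf y * q) = Lf y * Lap q + 2 * Dd y q := by
  unfold Lap Dd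
  simp only [pderiv_mul, map_add, pderiv_Lf, pderiv_C, Finset.mul_sum]
  rw [← Finset.sum_add_distrib]
  apply Finset.sum_congr rfl
  intro i _
  ring

lemma Lap_R2_mul {k : ℕ} (q : MvPolynomial (Fin 3) ℝ) (hq : q.IsHomogeneous k) :
    Lap (R2 * q) = R2 * Lap q + C (6 + 4 * (k:ℝ)) * q := by
  have hE := hq.sum_X_mul_pderiv
  have h2 : ∀ i : Fin 3, pderiv i (2 * X i : MvPolynomial (Fin 3) ℝ) = 2 := by
    intro i
    have h22 : (C 2 : MvPolynomial (Fin 3) ℝ) = 2 := map_ofNat C 2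
    have : (2 * X i : MvPolynomial (Fin 3) ℝ) = C 2 * X i := by rw [h22]
    rw [this, pderiv_C_mul, pderiv_X_self, h22, mul_one]
  have h1 : Lap (R2 * q) = ∑ i : Fin 3, (R2 * pderiv i (pderiv i q) + 4 * (X i * pderiv i q) + 2 * q) := by
    unfold Lap
    apply Finset.sum_congr rfl
    intro i _
    rw [pderiv_mul, map_add, pderiv_mul, pderiv_mul, pderiv_R2, h2]
    ring
  rw [h1, Finset.sum_add_distrib, Finset.sum_add_distrib, ← Finset.mul_sum, ← Finset.mul_sum, hE]
  unfold Lap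
  simp only [Finset.sum_const, Finset.card_univ, Fintype.card_fin, nsmul_eq_mul]
  have : (C (6 + 4 * (k:ℝ)) : MvPolynomial (Fin 3) ℝ) = 6 + 4 * (k : MvPolynomial (Fin 3) ℝ) := by
    have h6 : (C 6 : MvPolynomial (Fin 3) ℝ) = 6 := map_ofNat C 6
    have h4 : (C 4 : MvPolynomial (Fin 3) ℝ) = 4 := map_ofNat C 4
    rw [map_add, map_mul, h6, h4, map_natCast]
  rw [this]
  push_cast
  ring

lemma Dd_H (y : Fin 3 → ℝ) : ∀ k : ℕ,
    Dd y (H y (k + 1)) = C (((k:ℝ) + 1) ^ 2 * n2 y) * H y k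
  | 0 => by
    show Dd y (Lf y) = _ * 1
    rw [Dd_Lf]
    simp
  | 1 => by
    show Dd y (C (2 * ((0:ℕ):ℝ) + 3) * (Lf y * H y (0 + 1))
      - C ((((0:ℕ):ℝ) + 1) ^ 2 * n2 y) * (R2 * H y 0)) = _
    rw [Dd_sub, Dd_C_mul, Dd_C_mul, Dd_mul, Dd_mul, Dd_R2]
    show C (2 * ((0:ℕ):ℝ) + 3) * (Dd y (Lf y) * Lf y + Lf y * Dd y (Lf y))
      - C ((((0:ℕ):ℝ) + 1) ^ 2 * n2 y) * (2 * Lf y * 1 + R2 * Dd y 1) = _ * Lf y
    have h1 : Dd y (1 : MvPolynomial (Fin 3) ℝ) = 0 := by
      unfold Dd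
      simp
    rw [Dd_Lf, h1]
    have h22 : (C 2 : MvPolynomial (Fin 3) ℝ) = 2 := map_ofNat C 2
    rw [← h22]
    simp only [map_add, map_mul, map_pow, map_one, map_zero, Nat.cast_zero, Nat.cast_one]
    have h33 : (C 3 : MvPolynomial (Fin 3) ℝ) = 3 := map_ofNat C 3
    rw [h22, h33]
    ring
  | (k + 2) => by
    have ih1 := Dd_H y (k + 1)
    have ih0 := Dd_H y k
    show Dd y (C (2 * ((k+1:ℕ):ℝ) + 3) * (Lf y * H y (k + 1 + 1))
      - C ((((k+1:ℕ):ℝ) + 1) ^ 2 * n2 y) * (R2 * H y (k+1))) = _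
    rw [Dd_sub, Dd_C_mul, Dd_C_mul, Dd_mul, Dd_mul, Dd_R2, Dd_Lf, ih1, ih0]
    have hrec : H y (k + 2) = C (2 * (k:ℝ) + 3) * (Lf y * H y (k + 1))
      - C (((k:ℝ) + 1) ^ 2 * n2 y) * (R2 * H y k) := by
      conv_lhs => unfold H
    have h22 : (C 2 : MvPolynomial (Fin 3) ℝ) = 2 := map_ofNat C 2
    have h33 : (C 3 : MvPolynomial (Fin 3) ℝ) = 3 := map_ofNat C 3
    show _ = C ((((k+2:ℕ):ℝ) + 1) ^ 2 * n2 y) * H y (k+2)
    show C (2 * ((k+1:ℕ):ℝ) + 3) * (C (n2 y) * H y (k+2) + Lf y * (C ((((k+1:ℕ):ℝ) + 1) ^ 2 * n2 y) * H y (k+1))) - _ = _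
    rw [hrec]
    simp only [map_add, map_mul, map_pow, map_one, map_natCast, h22, h33]
    push_cast
    ring

lemma Lap_H (y : Fin 3 → ℝ) : ∀ k : ℕ, Lap (H y k) = 0
  | 0 => by
    show Lap 1 = 0
    unfold Lap
    simp
  | 1 => by
    show Lap (Lf y) = 0
    unfold Lap
    simp only [pderiv_Lf, pderiv_C, Finset.sum_const_zero]
  | (k + 2) => by
    have hrec : H y (k + 2) = C (2 * (k:ℝ) + 3) * (Lf y * H y (k + 1))
      - C (((k:ℝ) + 1) ^ 2 * n2 y) * (R2 * H y k) := by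
      conv_lhs => unfold H
    rw [hrec, Lap_sub, Lap_C_mul, Lap_C_mul, Lap_Lf_mul, Lap_R2_mul _ (H_hom y k),
      Lap_H y (k+1), Lap_H y k, Dd_H]
    have h22 : (C 2 : MvPolynomial (Fin 3) ℝ) = 2 := map_ofNat C 2
    have h33 : (C 3 : MvPolynomial (Fin 3) ℝ) = 3 := map_ofNat C 3
    have h6 : (C 6 : MvPolynomial (Fin 3) ℝ) = 6 := map_ofNat C 6
    have h4 : (C 4 : MvPolynomial (Fin 3) ℝ) = 4 := map_ofNat C 4
    simp only [map_add, map_mul, map_pow, map_one, map_natCast, h22, h33, h6, h4]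
    ring

lemma Lap_Dd (y : Fin 3 → ℝ) (q : MvPolynomial (Fin 3) ℝ) : Lap (Dd y q) = Dd y (Lap q) := by
  unfold Lap Dd
  simp only [map_sum, pderiv_C_mul, Finset.mul_sum]
  rw [Finset.sum_comm]
  apply Finset.sum_congr rfl
  intro i _
  apply Finset.sum_congr rfl
  intro j _
  have hc : ∀ (a b : Fin 3) (p : MvPolynomial (Fin 3) ℝ),
      pderiv a (pderiv b p) = pderiv b (pderiv a p) := by
    intro a b p
    ext m
    rw [coeff_pderiv, coeff_pderiv, coeff_pderiv, coeff_pderiv]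
    rw [add_right_comm]
    by_cases hab : a = b
    · subst hab; rfl
    · simp [hab, Ne.symm hab]
      ring
  rw [hc j i, hc j i]

lemma Dd_hom (y : Fin 3 → ℝ) {k : ℕ} {q : MvPolynomial (Fin 3) ℝ} (hq : q.IsHomogeneous (k+1)) :
    (Dd y q).IsHomogeneous k := by
  unfold Dd
  apply IsHomogeneous.sum
  intro i _
  have := (isHomogeneous_C (Fin 3) (y i)).mul (hq.pderiv (i := i))
  simpa using this

lemma eval_Dd (y : Fin 3 → ℝ) {k : ℕ} {q : MvPolynomial (Fin 3) ℝ} (hq : q.IsHomogeneous k) :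
    eval y (Dd y q) = k * eval y q := by
  have h := congrArg (eval y) hq.sum_X_mul_pderiv
  rw [map_sum] at h
  simp only [map_mul, eval_X, nsmul_eq_mul, map_natCast] at h
  unfold Dd
  rw [map_sum]
  simp only [map_mul, eval_C]
  exact h

/-- normalising constants -/
noncomputable def cc : ℕ → ℝ
  | 0 => 1
  | (k + 1) => (2 * (k:ℝ) + 1) * (k + 1) * cc k

lemma cc_pos : ∀ k, 0 < cc k
  | 0 => by unfold cc; norm_num
  | (k + 1) => by
    unfold cc
    have := cc_pos k
    positivity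

lemma reproducing (y : Fin 3 → ℝ) : ∀ (k : ℕ) (q : MvPolynomial (Fin 3) ℝ),
    q.IsHomogeneous k → Lap q = 0 → B (H y k) q = cc k * eval y q
  | 0, q, hq, _ => by
    have h1 : H y 0 = monomial 0 1 := by
      unfold H; rfl
    rw [h1, B_monomial]
    have h2 : q = C (coeff 0 q) := by
      rw [← totalDegree_zero_iff_isHomogeneous, totalDegree_eq_zero_iff_eq_C] at hq
      exact hq
    have h3 : eval y q = coeff 0 q := by
      conv_lhs => rw [h2]
      rw [eval_C]
    rw [h3]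
    unfold wt cc
    simp
  | 1, q, hq, hL => by
    have ih := reproducing y 0 (Dd y q) (Dd_hom y hq) (by
      rw [Lap_Dd, hL]; unfold Dd; simp)
    have h1 : H y 1 = Lf y * H y 0 := by
      unfold H
      rw [mul_one]
    rw [h1, B_Lf_mul, ih, eval_Dd y hq]
    unfold cc cc
    simp
  | (k + 2), q, hq, hL => by
    have ih := reproducing y (k+1) (Dd y q) (Dd_hom y hq) (by
      rw [Lap_Dd, hL]; unfold Dd; simp)
    have hrec : H y (k + 2) = C (2 * (k:ℝ) + 3) * (Lf y * H y (k + 1))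
      + C (-(((k:ℝ) + 1) ^ 2 * n2 y)) * (R2 * H y k) := by
      conv_lhs => unfold H
      rw [map_neg]
      ring
    rw [hrec, B_add_left, B_C_mul_left, B_C_mul_left, B_Lf_mul, B_R2_mul, hL, B_zero_right, ih,
      eval_Dd y hq]
    conv_rhs => unfold cc
    push_cast
    ring

theorem zonal_psd {ι : Type*} (s : Finset ι) (a : ι → ℝ) (z : ι → Fin 3 → ℝ) (k : ℕ) :
    0 ≤ ∑ i ∈ s, ∑ j ∈ s, a i * a j * eval (z i) (H (z j) k) := by
  have h : ∑ i ∈ s, ∑ j ∈ s, a i * a j * eval (z i) (H (z j) k)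
      = (cc k)⁻¹ * B (∑ i ∈ s, C (a i) * H (z i) k) (∑ i ∈ s, C (a i) * H (z i) k) := by
    rw [B_sum_left, Finset.mul_sum]
    apply Finset.sum_congr rfl
    intro i _
    rw [B_sum_right, Finset.mul_sum]
    apply Finset.sum_congr rfl
    intro j _
    rw [B_C_mul_left, B_C_mul_right, reproducing (z i) k _ (H_hom (z j) k) (Lap_H (z j) k)]
    have := (cc_pos k).ne'
    field_simp
  rw [h]
  exact mul_nonneg (inv_nonneg.mpr (cc_pos k).le) (B_self_nonneg _)

/-- Legendre polynomials as functions, by the three-term recurrence. -/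
noncomputable def P : ℕ → ℝ → ℝ
  | 0, _ => 1
  | 1, s => s
  | (k + 2), s => ((2 * (k:ℝ) + 3) * s * P (k + 1) s - ((k:ℝ) + 1) * P k s) / ((k:ℝ) + 2)

lemma P_rec (k : ℕ) (s : ℝ) :
    ((k:ℝ) + 2) * P (k + 2) s = (2 * (k:ℝ) + 3) * s * P (k + 1) s - ((k:ℝ) + 1) * P k s := by
  have : P (k + 2) s = ((2 * (k:ℝ) + 3) * s * P (k + 1) s - ((k:ℝ) + 1) * P k s) / ((k:ℝ) + 2) := by
    conv_lhs => unfold P
  rw [this]
  have h : ((k:ℝ) + 2) ≠ 0 := by positivity
  field_simp

lemma eval_Lf (x y : Fin 3 → ℝ) : eval x (Lf y) = ∑ i, y i * x i := by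
  unfold Lf
  simp

lemma eval_H (x y : Fin 3 → ℝ) (hx : n2 x = 1) (hy : n2 y = 1) : ∀ k : ℕ,
    eval x (H y k) = (k.factorial : ℝ) * P k (∑ i, y i * x i)
  | 0 => by
    unfold H P; simp
  | 1 => by
    unfold H P
    rw [eval_Lf]; simp
  | (k + 2) => by
    have hrec : H y (k + 2) = C (2 * (k:ℝ) + 3) * (Lf y * H y (k + 1))
      - C (((k:ℝ) + 1) ^ 2 * n2 y) * (R2 * H y k) := by
      conv_lhs => unfold H
    have hR : eval x R2 = 1 := by
      unfold R2
      rw [← hx]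
      unfold n2
      simp
    rw [hrec]
    simp only [map_sub, map_mul, map_pow, eval_C, hR, eval_Lf,
      eval_H x y hx hy (k+1), eval_H x y hx hy k, hy]
    have h := P_rec k (∑ i, y i * x i)
    have e : ((k + 2).factorial : ℝ) = (k.factorial : ℝ) * (k + 1) * (k + 2) := by
      rw [Nat.factorial_succ, Nat.factorial_succ]; push_cast; ring
    have e1 : ((k + 1).factorial : ℝ) = (k.factorial : ℝ) * (k + 1) := by
      rw [Nat.factorial_succ]; push_cast; ring
    rw [e, e1]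
    linear_combination (-(k.factorial : ℝ) * (k + 1)) * h

theorem legendre_psd {ι : Type*} (s : Finset ι) (a : ι → ℝ) (z : ι → Fin 3 → ℝ)
    (hz : ∀ i, n2 (z i) = 1) (k : ℕ) :
    0 ≤ ∑ i ∈ s, ∑ j ∈ s, a i * a j * P k (∑ l, z i l * z j l) := by
  have h := zonal_psd s a z k
  have h2 : ∑ i ∈ s, ∑ j ∈ s, a i * a j * eval (z i) (H (z j) k)
      = (k.factorial : ℝ) * ∑ i ∈ s, ∑ j ∈ s, a i * a j * P k (∑ l, z i l * z j l) := by
    rw [Finset.mul_sum]
    apply Finset.sum_congr rfl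
    intro i _
    rw [Finset.mul_sum]
    apply Finset.sum_congr rfl
    intro j _
    rw [eval_H _ _ (hz i) (hz j)]
    have e : ∑ l, z j l * z i l = ∑ l, z i l * z j l :=
      Finset.sum_congr rfl (fun l _ => mul_comm _ _)
    rw [e]
    ring
  rw [h2] at h
  have hf : (0:ℝ) < (k.factorial : ℝ) := by exact_mod_cast Nat.factorial_pos k
  by_contra hneg
  rw [not_le] at hneg
  have := mul_neg_of_pos_of_neg hf hneg
  linarith

end Pool.Agent.MP_9d12fbd9_an
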