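import Mathlib
import Pool.Agent.MP_9d12fbd9_an.Fischer

set_option autoImplicit false

namespace Pool.Agent.MP_9d12fbd9_an

lemma P_one : ∀ k : ℕ, P k 1 = 1
  | 0 => by unfold P; rfl
  | 1 => by unfold P; rfl
  | (k + 2) => by
    have h := P_rec k 1
    rw [P_one (k+1), P_one k] at h
    have h2 : ((k:ℝ) + 2) ≠ 0 := by positivity
    have : ((k:ℝ) + 2) * (P (k+2) 1 - 1) = 0 := by linarith
    rcases mul_eq_zero.mp this with h3 | h3
    · exact absurd h3 h2
    · linarith

lemma P_abs_le (k : ℕ) (s : ℝ) (hs : |s| ≤ 1) : |P k s| ≤ 1 := by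
  have hs2 : s ^ 2 ≤ 1 := by
    have := abs_le.mp hs
    nlinarith
  let z : Fin 2 → Fin 3 → ℝ := ![![1, 0, 0], ![s, Real.sqrt (1 - s ^ 2), 0]]
  have hsq : Real.sqrt (1 - s ^ 2) * Real.sqrt (1 - s ^ 2) = 1 - s ^ 2 :=
    Real.mul_self_sqrt (by linarith)
  have hz : ∀ i, n2 (z i) = 1 := by
    intro i
    fin_cases i
    · simp [z, n2, Fin.sum_univ_three]
    · simp [z, n2, Fin.sum_univ_three, hsq]
      ring
  have e00 : ∑ l, z 0 l * z 0 l = 1 := hz 0
  have e11 : ∑ l, z 1 l * z 1 l = 1 := hz 1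
  have e01 : ∑ l, z 0 l * z 1 l = s := by simp [z, Fin.sum_univ_three]
  have e10 : ∑ l, z 1 l * z 0 l = s := by simp [z, Fin.sum_univ_three]
  have h1 := legendre_psd Finset.univ (fun _ : Fin 2 => (1:ℝ)) z hz k
  have h2 := legendre_psd Finset.univ (![1, -1] : Fin 2 → ℝ) z hz k
  simp only [Fin.sum_univ_two, e00, e11, e01, e10, P_one] at h1 h2
  simp at h1 h2
  rw [abs_le]
  constructor <;> linarith

lemma summable_aux (s : ℝ) (hs : |s| ≤ 1) (x : ℝ) (hx : |x| < 1) :
    Summable (fun k : ℕ => P k s * x ^ k) := by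
  apply Summable.of_norm_bounded (g := fun k : ℕ => |x| ^ k)
    (summable_geometric_of_lt_one (abs_nonneg x) hx)
  intro k
  rw [Real.norm_eq_abs, abs_mul, abs_pow]
  have := P_abs_le k s hs
  have h2 : 0 ≤ |x| ^ k := by positivity
  nlinarith

/-- generating function -/
noncomputable def G (s x : ℝ) : ℝ := ∑' k : ℕ, P k s * x ^ k

/-- its derivative -/
noncomputable def G' (s x : ℝ) : ℝ := ∑' k : ℕ, P k s * (k * x ^ (k - 1))

lemma summable_aux' (s : ℝ) (hs : |s| ≤ 1) (x : ℝ) (hx : |x| < 1) :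
    Summable (fun k : ℕ => P k s * (k * x ^ (k - 1))) := by
  have h0 : Summable (fun k : ℕ => ((k:ℝ) * |x| ^ (k-1))) := by
    have := (hasSum_coe_mul_geometric_of_norm_lt_one (r := |x|) (by simpa using hx)).summable
    rcases eq_or_ne x 0 with h | h
    · subst h
      rw [← summable_nat_add_iff 2]
      simp
    · have h3 : |x| ≠ 0 := by simpa using h
      have h4 := this.mul_left (|x|⁻¹)
      refine h4.congr ?_
      intro k
      rcases k with _ | k
      · simp
      · simp only [Nat.cast_add, Nat.cast_one, add_tsub_cancel_right]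
        rw [pow_succ]
        field_simp
  apply Summable.of_norm_bounded (g := fun k : ℕ => (k:ℝ) * |x| ^ (k-1)) h0
  intro k
  rw [Real.norm_eq_abs, abs_mul, abs_mul, abs_pow]
  have := P_abs_le k s hs
  have h2 : 0 ≤ (k:ℝ) * |x| ^ (k-1) := by positivity
  rw [Nat.abs_cast]
  nlinarith

lemma hasDerivAt_G (s : ℝ) (hs : |s| ≤ 1) (x : ℝ) (hx : |x| < 1) :
    HasDerivAt (G s) (G' s x) x := by
  obtain ⟨R, hR1, hR2⟩ := exists_between hx
  have hR0 : 0 < R := lt_of_le_of_lt (abs_nonneg x) hR1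
  have hsum : Summable (fun k : ℕ => (k:ℝ) * R ^ (k-1)) := by
    have h := summable_aux' 1 (by simp) R (by rw [abs_of_pos hR0]; exact hR2)
    simpa [P_one] using h
  have := hasDerivAt_tsum_of_isPreconnected (g := fun (k:ℕ) (y:ℝ) => P k s * y ^ k)
    (g' := fun (k:ℕ) (y:ℝ) => P k s * (k * y ^ (k - 1))) (u := fun k : ℕ => (k:ℝ) * R ^ (k-1))
    (t := Set.Ioo (-R) R) hsum isOpen_Ioo isPreconnected_Ioo (by
      intro k y _
      exact (hasDerivAt_pow k y).const_mul _) (by
      intro k y hy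
      rw [Real.norm_eq_abs, abs_mul, abs_mul, abs_pow, Nat.abs_cast]
      have h1 := P_abs_le k s hs
      have h2 : |y| ≤ R := abs_le.mpr ⟨hy.1.le, hy.2.le⟩
      have h3 : |y| ^ (k-1) ≤ R ^ (k-1) := pow_le_pow_left₀ (abs_nonneg y) h2 _
      have h4 : (k:ℝ) * |y| ^ (k-1) ≤ (k:ℝ) * R ^ (k-1) :=
        mul_le_mul_of_nonneg_left h3 (Nat.cast_nonneg k)
      have h5 : 0 ≤ (k:ℝ) * |y| ^ (k-1) := by positivity
      calc |P k s| * ((k:ℝ) * |y| ^ (k-1)) ≤ 1 * ((k:ℝ) * |y| ^ (k-1)) :=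
            mul_le_mul_of_nonneg_right h1 h5
        _ ≤ _ := by rw [one_mul]; exact h4)
    (y₀ := x) (y := x) (by
      constructor
      · have := (abs_lt.mp hR1).1; exact this
      · exact (abs_lt.mp hR1).2) (summable_aux s hs x hx) (by
      constructor
      · have := (abs_lt.mp hR1).1; exact this
      · exact (abs_lt.mp hR1).2)
  exact this

lemma G_ode (s : ℝ) (hs : |s| ≤ 1) (x : ℝ) (hx : |x| < 1) :
    (1 - 2 * x * s + x ^ 2) * G' s x = (s - x) * G s x := by
  have h0 := (summable_aux s hs x hx).hasSum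
  have h1 := (summable_aux' s hs x hx).hasSum
  change HasSum _ (G s x) at h0
  change HasSum _ (G' s x) at h1
  -- shift
  have hD2 : HasSum (fun k : ℕ => P (k+2) s * (((k+2:ℕ):ℝ) * x ^ (k+1))) (G' s x - s) := by
    have := (hasSum_nat_add_iff' 2).mpr h1
    simp [Finset.sum_range_succ, P] at this ⊢
    exact this
  have hD1 : HasSum (fun k : ℕ => P (k+1) s * (((k+1:ℕ):ℝ) * x ^ k)) (G' s x) := by
    have := (hasSum_nat_add_iff' 1).mpr h1
    simp at this ⊢
    exact this
  have hA1 : HasSum (fun k : ℕ => P (k+1) s * x ^ (k+1)) (G s x - 1) := by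
    have := (hasSum_nat_add_iff' 1).mpr h0
    simp [P] at this ⊢
    exact this
  -- (2k+3) s P_{k+1} x^{k+1}
  have hB : HasSum (fun k : ℕ => (2 * (k:ℝ) + 3) * s * P (k+1) s * x ^ (k+1))
      (s * (2 * x * G' s x + (G s x - 1))) := by
    have := ((hD1.mul_left (2 * x)).add hA1).mul_left s
    refine this.congr_fun ?_ 
    intro k
    push_cast
    ring
  have hC : HasSum (fun k : ℕ => ((k:ℝ) + 1) * P k s * x ^ (k+1))
      (x ^ 2 * G' s x + x * G s x) := by
    have := ((h1.mul_left (x^2)).add (h0.mul_left x))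
    refine this.congr_fun ?_
    intro k
    rcases k with _ | k
    · simp; ring
    · simp
      ring
  have hE := hB.sub hC
  have hF : HasSum (fun k : ℕ => P (k+2) s * (((k+2:ℕ):ℝ) * x ^ (k+1)))
      (s * (2 * x * G' s x + (G s x - 1)) - (x ^ 2 * G' s x + x * G s x)) := by
    refine hE.congr_fun ?_
    intro k
    have h := P_rec k s
    push_cast
    linear_combination (x ^ (k+1)) * h
  have := hD2.unique hF
  linarith

lemma quad_pos (s : ℝ) (hs : |s| ≤ 1) (x : ℝ) (hx : |x| < 1) : 0 < 1 - 2 * x * s + x ^ 2 := by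
  have h1 : x * s ≤ |x| := by
    calc x * s ≤ |x * s| := le_abs_self _
      _ = |x| * |s| := abs_mul _ _
      _ ≤ |x| * 1 := mul_le_mul_of_nonneg_left hs (abs_nonneg x)
      _ = |x| := mul_one _
  have h2 : x ^ 2 = |x| ^ 2 := (sq_abs x).symm
  have h3 : 0 < (1 - |x|) ^ 2 := by
    have : 0 < 1 - |x| := by linarith
    positivity
  nlinarith

/-- The generating function of the Legendre polynomials. -/
theorem G_eq (s : ℝ) (hs : |s| ≤ 1) (x : ℝ) (hx : |x| < 1) :
    G s x = (Real.sqrt (1 - 2 * x * s + x ^ 2))⁻¹ := by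
  have hd : ∀ y ∈ Set.Ioo (-1:ℝ) 1,
      HasDerivAt (fun y => G s y * Real.sqrt (1 - 2 * y * s + y ^ 2)) 0 y := by
    intro y hy
    have hy' : |y| < 1 := abs_lt.mpr hy
    have hq := quad_pos s hs y hy'
    have h1 := hasDerivAt_G s hs y hy'
    have h2 : HasDerivAt (fun y : ℝ => 1 - 2 * y * s + y ^ 2) (-2 * s + 2 * y) y := by
      have ha : HasDerivAt (fun y : ℝ => 2 * y * s) (2 * s) y := by
        simpa using ((hasDerivAt_id y).const_mul 2).mul_const s
      have hb : HasDerivAt (fun y : ℝ => y ^ 2) (2 * y) y := by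
        simpa using hasDerivAt_pow 2 y
      have := (ha.const_sub 1).add hb
      exact this.congr_deriv (by ring)
    have h3 := h2.sqrt hq.ne'
    have h4 : HasDerivAt (fun y => G s y * Real.sqrt (1 - 2 * y * s + y ^ 2)) _ y := h1.mul h3
    refine h4.congr_deriv ?_
    have hode := G_ode s hs y hy'
    have hmul : Real.sqrt (1 - 2 * y * s + y ^ 2) * Real.sqrt (1 - 2 * y * s + y ^ 2)
      = 1 - 2 * y * s + y ^ 2 := Real.mul_self_sqrt hq.le
    have hsq : Real.sqrt (1 - 2 * y * s + y ^ 2) ≠ 0 := (Real.sqrt_pos.mpr hq).ne'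
    rw [← hmul] at hode
    generalize Real.sqrt (1 - 2 * y * s + y ^ 2) = R at *
    field_simp
    linarith
  have hconst : ∀ y ∈ Set.Ioo (-1:ℝ) 1,
      G s y * Real.sqrt (1 - 2 * y * s + y ^ 2) = G s 0 * Real.sqrt (1 - 2 * 0 * s + 0 ^ 2) := by
    intro y hy
    exact isOpen_Ioo.is_const_of_deriv_eq_zero isPreconnected_Ioo
      (fun z hz => (hd z hz).differentiableAt.differentiableWithinAt)
      (fun z hz => (hd z hz).deriv) hy (by norm_num)
  have h0 : G s 0 = 1 := by
    unfold G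
    rw [tsum_eq_single 0]
    · simp [P]
    · intro k hk
      simp [hk]
  have h := hconst x (abs_lt.mp hx)
  rw [h0] at h
  simp at h
  have hsq : Real.sqrt (1 - 2 * x * s + x ^ 2) ≠ 0 :=
    (Real.sqrt_pos.mpr (quad_pos s hs x hx)).ne'
  field_simp
  exact h

theorem hasSum_generating (s : ℝ) (hs : |s| ≤ 1) (x : ℝ) (hx : |x| < 1) :
    HasSum (fun k : ℕ => P k s * x ^ k) ((Real.sqrt (1 - 2 * x * s + x ^ 2))⁻¹) := by
  have := (summable_aux s hs x hx).hasSum
  rw [← G_eq s hs x hx]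
  exact this

end Pool.Agent.MP_9d12fbd9_an
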