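import Mathlib
import Pool.Agent.MP_9d12fbd9_an.Legendre

set_option autoImplicit false

namespace Pool.Agent.MP_9d12fbd9_an

/-- central binomial row -/
noncomputable def e (n k : ℕ) : ℝ := (Nat.choose (2 * n + 1) (n + 1 + k) : ℝ)

/-- normalisation -/
noncomputable def K (n : ℕ) : ℝ := ((n.factorial : ℝ)) ^ 2 / ((2 * n + 1).factorial : ℝ)

/-- connection coefficients of ((1+s)/2)^n in Legendre polynomials -/
noncomputable def c (n k : ℕ) : ℝ := (2 * (k:ℝ) + 1) * (e n k * K n)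

lemma K_pos (n : ℕ) : 0 < K n := by
  unfold K
  positivity

lemma e_nonneg (n k : ℕ) : 0 ≤ e n k := Nat.cast_nonneg _

lemma c_nonneg (n k : ℕ) : 0 ≤ c n k := by
  unfold c
  have := (K_pos n).le
  have := e_nonneg n k
  positivity

lemma choose_rel (M j : ℕ) : ((M.choose (j+1) : ℕ) : ℝ) * ((j:ℝ) + 1) = (M.choose j : ℝ) * ((M:ℝ) - j) := by
  have h := Nat.choose_succ_right_eq M j
  rcases le_or_gt j M with hj | hj
  · have h2 : ((M.choose (j+1) * (j+1) : ℕ) : ℝ) = ((M.choose j * (M - j) : ℕ) : ℝ) := by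
      exact_mod_cast h
    push_cast [Nat.cast_sub hj] at h2
    exact h2
  · rw [Nat.choose_eq_zero_of_lt hj, Nat.choose_eq_zero_of_lt (by omega)]
    simp

lemma e_rel (n k : ℕ) : ((n:ℝ) + k + 2) * e n (k+1) = ((n:ℝ) - k) * e n k := by
  have h := choose_rel (2 * n + 1) (n + 1 + k)
  unfold e
  have : n + 1 + (k + 1) = n + 1 + k + 1 := by ring
  rw [this]
  push_cast at h
  linear_combination h

lemma e_succ (n k : ℕ) : e (n+1) (k+1) = e n (k+2) + 2 * e n (k+1) + e n k := by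
  unfold e
  have h1 : 2 * (n + 1) + 1 = (2 * n + 1) + 1 + 1 := by ring
  have h2 : n + 1 + 1 + (k + 1) = (n + 1 + k) + 1 + 1 := by ring
  have h3 : n + 1 + (k + 2) = (n + 1 + k) + 1 + 1 := by ring
  have h4 : n + 1 + (k + 1) = (n + 1 + k) + 1 := by ring
  rw [h1, h2, h3, h4, Nat.choose_succ_succ (2*n+1+1), Nat.choose_succ_succ (2*n+1),
    Nat.choose_succ_succ (2*n+1)]
  push_cast
  ring

lemma e_succ_zero (n : ℕ) : e (n+1) 0 = e n 1 + 3 * e n 0 := by
  unfold e
  have h1 : 2 * (n + 1) + 1 = (2 * n + 1) + 1 + 1 := by ring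
  have h2 : n + 1 + 1 + 0 = n + 1 + 1 := by ring
  have h3 : n + 1 + 0 = n + 1 := by ring
  rw [h1, h2, h3, Nat.choose_succ_succ (2*n+1+1), Nat.choose_succ_succ (2*n+1),
    Nat.choose_succ_succ (2*n+1) n.succ]
  have hs : (2 * n + 1).choose n = (2 * n + 1).choose (n + 1) := by
    apply Nat.choose_symm_of_eq_add
    ring
  rw [hs]
  push_cast
  ring

lemma K_succ (n : ℕ) : (2 * (2 * (n:ℝ) + 3)) * K (n+1) = ((n:ℝ) + 1) * K n := by
  unfold K
  have h1 : 2 * (n + 1) + 1 = (2 * n + 1) + 1 + 1 := by ring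
  rw [h1, Nat.factorial_succ (2*n+1+1), Nat.factorial_succ (2*n+1), Nat.factorial_succ n]
  have h : ((2 * n + 1).factorial : ℝ) ≠ 0 := by positivity
  push_cast
  field_simp
  ring

lemma d_rec (n k : ℕ) : (2 * ((k:ℝ)+1) + 1) * (e (n+1) (k+1) * K (n+1))
    = 1/2 * ((2 * ((k:ℝ)+1) + 1) * (e n (k+1) * K n) + ((k:ℝ)+1) * (e n k * K n)
      + ((k:ℝ) + 2) * (e n (k+2) * K n)) := by
  have hR1 := e_rel n (k+1)
  have hR2 := e_rel n k
  have hK := K_succ n
  rw [e_succ]
  have h3 : (2 * (2 * (n:ℝ) + 3)) ≠ 0 := by positivity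
  have hK' : K (n+1) = ((n:ℝ) + 1) * K n / (2 * (2 * (n:ℝ) + 3)) := by
    field_simp
    linarith
  rw [hK']
  push_cast at hR1
  field_simp
  linear_combination (-K n) * hR1 - (K n) * hR2

lemma d_rec_zero (n : ℕ) : e (n+1) 0 * K (n+1)
    = 1/2 * (e n 0 * K n + e n 1 * K n) := by
  have hR1 := e_rel n 0
  have hK := K_succ n
  rw [e_succ_zero]
  have h3 : (2 * (2 * (n:ℝ) + 3)) ≠ 0 := by positivity
  have hK' : K (n+1) = ((n:ℝ) + 1) * K n / (2 * (2 * (n:ℝ) + 3)) := by
    field_simp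
    linarith
  rw [hK']
  simp at hR1
  field_simp
  linear_combination (-K n) * hR1

lemma e_zero_of_lt {n k : ℕ} (h : n < k) : e n k = 0 := by
  unfold e
  rw [Nat.choose_eq_zero_of_lt (by omega)]
  simp

lemma sP (k : ℕ) (s : ℝ) : (2 * ((k:ℝ)+1) + 1) * (s * P (k+1) s)
    = ((k:ℝ) + 2) * P (k+2) s + ((k:ℝ) + 1) * P k s := by
  have := P_rec k s
  linear_combination -this

/-- Legendre expansion of powers of (1+s)/2. -/
theorem pow_expansion (s : ℝ) : ∀ n : ℕ,
    ((1 + s) / 2) ^ n = ∑ k ∈ Finset.range (n+1), c n k * P k s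
  | 0 => by
    simp [c, e, K, P]
  | (n + 1) => by
    rw [pow_succ, pow_expansion s n]
    set d : ℕ → ℝ := fun k => e n k * K n with hd
    have hd0 : d (n+1) = 0 := by simp [hd, e_zero_of_lt (Nat.lt_succ_self n)]
    have hd1 : d (n+2) = 0 := by simp [hd, e_zero_of_lt (show n < n + 2 by omega)]
    -- left-hand side
    have hL : (∑ k ∈ Finset.range (n+1), c n k * P k s) * ((1 + s) / 2)
        = 1/2 * ∑ k ∈ Finset.range (n+1), (2 * (k:ℝ) + 1) * d k * P k s
        + 1/2 * ∑ k ∈ Finset.range (n+1), d k * ((2 * (k:ℝ) + 1) * (s * P k s)) := by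
      rw [Finset.sum_mul, Finset.mul_sum, Finset.mul_sum, ← Finset.sum_add_distrib]
      apply Finset.sum_congr rfl
      intro k _
      simp only [c, hd]
      ring
    have hL2 : ∑ k ∈ Finset.range (n+1), d k * ((2 * (k:ℝ) + 1) * (s * P k s))
        = ∑ k ∈ Finset.range (n+1), ((k:ℝ) + 1) * d k * P (k+1) s
          + ∑ k ∈ Finset.range (n+1), (k:ℝ) * d k * P (k-1) s := by
      rw [← Finset.sum_add_distrib]
      apply Finset.sum_congr rfl
      intro k _
      rcases k with _ | k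
      · simp [P]
      · have := sP k s
        simp only [Nat.add_sub_cancel]
        push_cast
        linear_combination (d (k+1)) * this
    have hA : ∑ k ∈ Finset.range (n+2), ((k:ℝ) + 1) * d (k+1) * P k s
        = ∑ k ∈ Finset.range (n+1), (k:ℝ) * d k * P (k-1) s := by
      rw [Finset.sum_range_succ, Finset.sum_range_succ, hd0, hd1, Finset.sum_range_succ']
      simp
    have hB : ∑ k ∈ Finset.range (n+2), (k:ℝ) * d (k-1) * P k s
        = ∑ k ∈ Finset.range (n+1), ((k:ℝ) + 1) * d k * P (k+1) s := by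
      rw [Finset.sum_range_succ']
      simp
    have hC : ∑ k ∈ Finset.range (n+1), (2 * (k:ℝ) + 1) * d k * P k s
        = ∑ k ∈ Finset.range (n+2), (2 * (k:ℝ) + 1) * d k * P k s := by
      rw [Finset.sum_range_succ _ (n+1), hd0]
      simp
    rw [hL, hL2, hC, ← hA, ← hB]
    rw [← mul_add, ← Finset.sum_add_distrib, ← Finset.sum_add_distrib, Finset.mul_sum]
    apply Finset.sum_congr rfl
    intro k _
    rcases k with _ | k
    · have := d_rec_zero n
      simp only [c, hd]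
      simp
      linear_combination (-P 0 s) * this
    · have := d_rec n k
      simp only [c, hd, Nat.add_sub_cancel]
      push_cast
      linear_combination (-P (k+1) s) * this

lemma c_sum (n : ℕ) : ∑ k ∈ Finset.range (n+1), c n k = 1 := by
  have := pow_expansion 1 n
  simp only [P_one] at this
  norm_num at this
  exact this.symm

lemma c_zero (n : ℕ) : c n 0 = 1 / ((n:ℝ) + 1) := by
  induction n with
  | zero => simp [c, e, K]
  | succ n ih =>
    unfold c at ih ⊢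
    have h1 := d_rec_zero n
    have h2 := e_rel n 0
    simp at h2 ih ⊢
    have h3 : ((n:ℝ) + 2) ≠ 0 := by positivity
    have h4 : e n 1 = (n:ℝ) * e n 0 / ((n:ℝ) + 2) := by
      field_simp
      linarith
    rw [h1, h4]
    have h5 : e n 0 * K n = 1 / ((n:ℝ) + 1) := by rw [ih]; simp
    have h6 : ((n:ℝ) + 1) ≠ 0 := by positivity
    have h7 : ((n:ℝ) + 1 + 1) ≠ 0 := by positivity
    have : 1/2 * (e n 0 * K n + (n:ℝ) * e n 0 / ((n:ℝ) + 2) * K n)
      = 1/2 * (e n 0 * K n) * (1 + (n:ℝ) / ((n:ℝ) + 2)) := by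
      field_simp
    rw [this, h5]
    field_simp
    ring

/-- the action of the Laplacian eigenvalue on coefficients -/
lemma c_eig (n k : ℕ) : ((k:ℝ) * ((k:ℝ) + 1)) * c (n+1) k
    = ((n:ℝ) + 1) * ((n:ℝ) + 2) * c (n+1) k - ((n:ℝ) + 1) ^ 2 * c n k := by
  have hK := K_succ n
  have key : ((n:ℝ) + 1 - k) * ((n:ℝ) + 2 + k) * e (n+1) k
      = 2 * ((n:ℝ) + 1) * (2 * (n:ℝ) + 3) * e n k := by
    unfold e
    have h1 : 2 * (n + 1) + 1 = (2 * n + 2) + 1 := by ring
    have h2 : n + 1 + 1 + k = (n + 1 + k) + 1 := by ring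
    rw [h1, h2]
    have h3 := Nat.add_one_mul_choose_eq (2 * n + 2) (n + 1 + k)
    have h3' : ((2 * (n:ℝ) + 2) + 1) * ((2 * n + 2).choose (n + 1 + k) : ℝ)
        = ((2 * n + 2 + 1).choose (n + 1 + k + 1) : ℝ) * (((n:ℝ) + 1 + k) + 1) := by
      exact_mod_cast h3
    -- second relation: (2n+2-(n+1+k)) C(2n+2,n+1+k) = (2n+2) C(2n+1,n+1+k)
    have h4 : ((n:ℝ) + 1 - k) * ((2 * n + 2).choose (n + 1 + k) : ℝ)
        = (2 * (n:ℝ) + 2) * ((2 * n + 1).choose (n + 1 + k) : ℝ) := by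
      have h5 := choose_rel (2 * n + 2) (n + 1 + k)
      have h6 := Nat.add_one_mul_choose_eq (2 * n + 1) (n + 1 + k)
      have h6' : ((2 * (n:ℝ) + 1) + 1) * ((2 * n + 1).choose (n + 1 + k) : ℝ)
        = ((2 * n + 1 + 1).choose (n + 1 + k + 1) : ℝ) * (((n:ℝ) + 1 + k) + 1) := by
        exact_mod_cast h6
      have h7 : 2 * n + 1 + 1 = 2 * n + 2 := by ring
      rw [h7] at h6'
      push_cast at h5
      linear_combination -h5 - h6'
    linear_combination (2 * (n:ℝ) + 3) * h4 - ((n:ℝ) + 1 - k) * h3'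
  unfold c
  have h3 : (2 * (2 * (n:ℝ) + 3)) ≠ 0 := by positivity
  have hK' : K (n+1) = ((n:ℝ) + 1) * K n / (2 * (2 * (n:ℝ) + 3)) := by
    field_simp
    linarith
  rw [hK']
  field_simp
  linear_combination (-(K n)) * key

end Pool.Agent.MP_9d12fbd9_an
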