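import Mathlib
import Pool.Agent.MP_9d12fbd9_an.Expansion

set_option autoImplicit false

namespace Pool.Agent.MP_9d12fbd9_an

/-- coefficient multiplier -/
noncomputable def g (n x : ℝ) : ℝ := (7 / 2 * n - x) * (x ^ 2 + 2 * n * x + 5 * n ^ 2)

noncomputable def A0 (n : ℝ) : ℝ := n ^ 3 * (-n ^ 3 - 3 / 2 * n ^ 2 + 2 * n + 20)
noncomputable def A1 (n : ℝ) : ℝ := n ^ 4 * (3 * n ^ 2 - 3 * n - 1)
noncomputable def A2 (n : ℝ) : ℝ := n ^ 2 * (n - 1) ^ 2 * (-3 * n ^ 2 + 9 / 2 * n - 2)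
noncomputable def A3 (n : ℝ) : ℝ := n ^ 2 * (n - 1) ^ 2 * (n - 2) ^ 2

/-- the cubic factor -/
noncomputable def cub (n w : ℝ) : ℝ := A0 n * w ^ 3 + A1 n * w ^ 2 + A2 n * w + A3 n

/-- the test function; `n = m + 3` -/
noncomputable def f (m : ℕ) (s : ℝ) : ℝ := ((1 + s) / 2) ^ m * cub ((m:ℝ) + 3) ((1 + s) / 2)

lemma c_comb (m k : ℕ) :
    A0 ((m:ℝ)+3) * c (m+3) k + A1 ((m:ℝ)+3) * c (m+2) k + A2 ((m:ℝ)+3) * c (m+1) k
      + A3 ((m:ℝ)+3) * c m k = g ((m:ℝ)+3) ((k:ℝ) * ((k:ℝ) + 1)) * c (m+3) k := by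
  have E1 := c_eig (m+2) k
  have E2 := c_eig (m+1) k
  have E3 := c_eig m k
  push_cast at E1 E2 E3
  have h1 : m + 2 + 1 = m + 3 := rfl
  have h2 : m + 1 + 1 = m + 2 := rfl
  rw [h1] at E1
  rw [h2] at E2
  generalize c (m+3) k = c3 at *
  generalize c (m+2) k = c2 at *
  generalize c (m+1) k = c1 at *
  generalize c m k = c0 at *
  generalize (k:ℝ) * ((k:ℝ) + 1) = x at *
  unfold A0 A1 A2 A3 g
  have hn : ∃ n : ℝ, (m:ℝ) = n - 3 := ⟨m + 3, by ring⟩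
  obtain ⟨n, hn⟩ := hn
  rw [hn] at E1 E2 E3 ⊢
  linear_combination (-(-(x ^ 2 + n*(n+1)*x + (n*(n+1))^2) + (3/2*n)*(x + n*(n+1)) + 2*n^2)) * E1
    + (n^2 * (-(x + (n-1)*n) - n*(n+1) + 3/2*n)) * E2 + (n^2*(n-1)^2) * E3

lemma c_of_lt {n k : ℕ} (h : n < k) : c n k = 0 := by
  unfold c
  rw [e_zero_of_lt h]
  ring

lemma pow_expansion' (s : ℝ) (n M : ℕ) (h : n + 1 ≤ M) :
    ((1 + s) / 2) ^ n = ∑ k ∈ Finset.range M, c n k * P k s := by
  rw [pow_expansion]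
  apply Finset.sum_subset
  · intro k hk
    rw [Finset.mem_range] at hk ⊢
    omega
  · intro k _ hk
    rw [Finset.mem_range] at hk
    rw [c_of_lt (by omega)]
    ring

theorem f_expansion (m : ℕ) (s : ℝ) : f m s = ∑ k ∈ Finset.range (m + 4),
    g ((m:ℝ)+3) ((k:ℝ) * ((k:ℝ) + 1)) * c (m+3) k * P k s := by
  have h : f m s = A0 ((m:ℝ)+3) * ((1 + s) / 2) ^ (m+3) + A1 ((m:ℝ)+3) * ((1 + s) / 2) ^ (m+2)
      + A2 ((m:ℝ)+3) * ((1 + s) / 2) ^ (m+1) + A3 ((m:ℝ)+3) * ((1 + s) / 2) ^ m := by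
    unfold f cub
    ring
  rw [h, pow_expansion' s (m+3) (m+4) (by omega), pow_expansion' s (m+2) (m+4) (by omega),
    pow_expansion' s (m+1) (m+4) (by omega), pow_expansion' s m (m+4) (by omega)]
  rw [Finset.mul_sum, Finset.mul_sum, Finset.mul_sum, Finset.mul_sum, ← Finset.sum_add_distrib,
    ← Finset.sum_add_distrib, ← Finset.sum_add_distrib]
  apply Finset.sum_congr rfl
  intro k _
  rw [← c_comb]
  ring

lemma F_pos (u : ℝ) (hu : 0 ≤ u) :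
    3/100 * (1 + u) ≤ u ^ 3 - 15/2 * u ^ 2 + 10 * u + 33/2 := by
  nlinarith [mul_nonneg (show (0:ℝ) ≤ u + 922/1000 by linarith) (sq_nonneg (u - 4211/1000))]

lemma cub_eq (n v : ℝ) : cub n (1 - v) = n ^ 3 * ((n*v) ^ 3 - 15/2 * (n*v) ^ 2 + 10 * (n*v) + 33/2)
    + n ^ 2 * (2 - 137/2 * (n*v) + 5 * (n*v)^2 + 3/2 * (n*v)^3)
    + n * (2 * (n*v) + 60 * (n*v)^2 - 2 * (n*v)^3) - 20 * (n*v)^3 := by
  unfold cub A0 A1 A2 A3
  ring

lemma cub_nonneg (n : ℝ) (hn : 10000 ≤ n) (w : ℝ) (hw0 : 0 ≤ w) (hw1 : w ≤ 1) : 0 ≤ cub n w := by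
  have h := cub_eq n (1 - w)
  have e1 : 1 - (1 - w) = w := by ring
  rw [e1] at h
  rw [h]
  have hu0 : 0 ≤ n * (1 - w) := mul_nonneg (by linarith) (by linarith)
  generalize n * (1 - w) = u at *
  have hF := F_pos u hu0
  have hn0 : 0 ≤ n := by linarith
  have h1 : n ^ 3 * (3/100 * (1 + u)) ≤ n ^ 3 * (u ^ 3 - 15/2 * u ^ 2 + 10 * u + 33/2) :=
    mul_le_mul_of_nonneg_left hF (by positivity)
  have h2 : n ^ 2 * (300 * (1 + u)) ≤ n ^ 3 * (3/100 * (1 + u)) := by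
    have : n ^ 2 * (300 * (1 + u)) = n ^ 2 * 10000 * (3/100 * (1 + u)) := by ring
    rw [this]
    have h3 : n ^ 3 = n ^ 2 * n := by ring
    rw [h3]
    apply mul_le_mul_of_nonneg_right _ (by positivity)
    exact mul_le_mul_of_nonneg_left hn (by positivity)
  have h4 : 20 * u ^ 3 + n * (2 * u ^ 3) ≤ n ^ 2 * (3/2 * u^3) := by
    have : 0 ≤ u ^ 3 := by positivity
    have h5 : 20 + n * 2 ≤ n ^ 2 * (3/2) := by nlinarith
    nlinarith
  have h6 : 0 ≤ n ^ 2 * (5 * u ^ 2) := by positivity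
  have h7 : 0 ≤ n * (2 * u + 60 * u ^ 2) := by positivity
  have h8 : 0 ≤ n ^ 2 * u := by positivity
  have h9 : 0 ≤ n ^ 2 := by positivity
  nlinarith

lemma f_nonneg (m : ℕ) (hm : 10000 ≤ m) (s : ℝ) (hs : |s| ≤ 1) : 0 ≤ f m s := by
  have h := abs_le.mp hs
  unfold f
  apply mul_nonneg
  · apply pow_nonneg; linarith
  · apply cub_nonneg
    · have : (10000:ℝ) ≤ (m:ℝ) := by exact_mod_cast hm
      linarith
    · linarith
    · linarith

lemma f_one (m : ℕ) : f m 1 = 33/2 * ((m:ℝ)+3)^3 + 2 * ((m:ℝ)+3)^2 := by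
  unfold f cub A0 A1 A2 A3
  norm_num
  ring

/-- The linear programming inequality. -/
theorem lp_bound (N m : ℕ) (hN : 0 < N) (hm : 10000 ≤ m) (S : Fin N → Fin N → ℝ)
    (hdiag : ∀ i, S i i = 1) (habs : ∀ i j, |S i j| ≤ 1)
    (hpsd : ∀ k, 0 ≤ ∑ i, ∑ j, P k (S i j)) (μ : ℝ) (hμ : 0 ≤ μ)
    (hsmall : ∀ k : ℕ, 1 ≤ k → (k:ℝ) * ((k:ℝ) + 1) < 7/2 * ((m:ℝ)+3) →
      ∑ i, ∑ j, P k (S i j) ≤ μ * (N:ℝ)^2) :
    33/2 ≤ (N:ℝ) * (35/2 / ((m:ℝ) + 4) + 85 * μ) := by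
  have hN' : (0:ℝ) < N := by exact_mod_cast hN
  set n : ℝ := (m:ℝ) + 3 with hn
  have hn0 : 10000 ≤ n := by
    have : (10000:ℝ) ≤ (m:ℝ) := by exact_mod_cast hm
    linarith
  have hnpos : 0 < n := by linarith
  -- lower bound
  have hlow : (N:ℝ) * f m 1 ≤ ∑ i, ∑ j, f m (S i j) := by
    have h1 : ∀ i : Fin N, f m 1 ≤ ∑ j, f m (S i j) := by
      intro i
      have := Finset.single_le_sum (f := fun j => f m (S i j)) (s := Finset.univ)
        (fun j _ => f_nonneg m hm _ (habs i j)) (Finset.mem_univ i)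
      simp only [hdiag] at this
      exact this
    calc (N:ℝ) * f m 1 = ∑ _i : Fin N, f m 1 := by simp
      _ ≤ _ := Finset.sum_le_sum (fun i _ => h1 i)
  -- expansion
  have hexp : ∑ i, ∑ j, f m (S i j) = ∑ k ∈ Finset.range (m + 4),
      g n ((k:ℝ) * ((k:ℝ) + 1)) * c (m+3) k * ∑ i, ∑ j, P k (S i j) := by
    simp only [f_expansion, Finset.mul_sum]
    rw [Finset.sum_comm]
    simp only [Finset.sum_comm (s := (Finset.univ : Finset (Fin N))) (t := Finset.range (m+4))]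
    apply Finset.sum_congr rfl
    intro k _
    rw [Finset.sum_comm]
  have hterm : ∀ k ∈ Finset.range (m+4), 
      g n ((k:ℝ) * ((k:ℝ) + 1)) * c (m+3) k * ∑ i, ∑ j, P k (S i j)
      ≤ (if k = 0 then 35/2 * n ^ 3 / ((m:ℝ) + 4) * (N:ℝ)^2 else 0)
        + c (m+3) k * (85 * n^3 * μ * (N:ℝ)^2) := by
    intro k _
    have hc := c_nonneg (m+3) k
    have hM := hpsd k
    by_cases hk : k = 0
    · subst hk
      have hc0 := c_zero (m+3)
      have hP0 : ∑ i, ∑ j, P 0 (S i j) = (N:ℝ)^2 := by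
        simp [P]
        ring
      rw [hP0, if_pos rfl]
      have hg : g n (((0:ℕ):ℝ) * (((0:ℕ):ℝ) + 1)) = 35/2 * n ^ 3 := by
        unfold g
        norm_num
        ring
      rw [hg]
      have h2 : c (m+3) 0 = 1 / ((m:ℝ) + 4) := by
        rw [hc0]; push_cast; ring
      have h3 : 0 ≤ c (m+3) 0 * (85 * n^3 * μ * (N:ℝ)^2) := by positivity
      rw [h2] at h3 ⊢
      have h4 : 35/2 * n ^ 3 * (1 / ((m:ℝ) + 4)) * (N:ℝ)^2 = 35/2 * n ^ 3 / ((m:ℝ) + 4) * (N:ℝ)^2 := by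
        ring
      linarith
    · rw [if_neg hk, zero_add]
      have hk1 : 1 ≤ k := Nat.one_le_iff_ne_zero.mpr hk
      set x : ℝ := (k:ℝ) * ((k:ℝ) + 1) with hx
      have hx0 : 0 ≤ x := by positivity
      by_cases hlt : x < 7/2 * n
      · have hsm := hsmall k hk1 hlt
        have hg0 : 0 ≤ g n x := by
          unfold g
          apply mul_nonneg (by linarith)
          positivity
        have hg1 : g n x ≤ 85 * n^3 := by
          unfold g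
          have h1 : x ^ 2 + 2 * n * x + 5 * n^2 ≤ 97/4 * n^2 := by nlinarith
          have h2 : 7/2 * n - x ≤ 7/2 * n := by linarith
          have h3 : 0 ≤ x ^ 2 + 2 * n * x + 5 * n^2 := by positivity
          calc (7/2 * n - x) * (x ^ 2 + 2 * n * x + 5 * n^2)
              ≤ (7/2 * n) * (x ^ 2 + 2 * n * x + 5 * n^2) := mul_le_mul_of_nonneg_right h2 h3
            _ ≤ (7/2 * n) * (97/4 * n^2) := mul_le_mul_of_nonneg_left h1 (by positivity)
            _ ≤ 85 * n^3 := by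
                have : 0 ≤ n^3 := by positivity
                nlinarith
        calc g n x * c (m+3) k * ∑ i, ∑ j, P k (S i j)
            ≤ g n x * c (m+3) k * (μ * (N:ℝ)^2) :=
              mul_le_mul_of_nonneg_left hsm (mul_nonneg hg0 hc)
          _ = g n x * (c (m+3) k * (μ * (N:ℝ)^2)) := by ring
          _ ≤ 85 * n^3 * (c (m+3) k * (μ * (N:ℝ)^2)) :=
              mul_le_mul_of_nonneg_right hg1 (by positivity)
          _ = _ := by ring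
      · have hg0 : g n x ≤ 0 := by
          unfold g
          apply mul_nonpos_of_nonpos_of_nonneg
          · linarith
          · positivity
        have h1 : g n x * c (m+3) k * ∑ i, ∑ j, P k (S i j) ≤ 0 := by
          apply mul_nonpos_of_nonpos_of_nonneg _ hM
          exact mul_nonpos_of_nonpos_of_nonneg hg0 hc
        have h2 : 0 ≤ c (m+3) k * (85 * n^3 * μ * (N:ℝ)^2) := by positivity
        linarith
  have hup : ∑ i, ∑ j, f m (S i j) ≤ 35/2 * n ^ 3 / ((m:ℝ) + 4) * (N:ℝ)^2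
      + 85 * n^3 * μ * (N:ℝ)^2 := by
    rw [hexp]
    refine (Finset.sum_le_sum hterm).trans ?_
    rw [Finset.sum_add_distrib, ← Finset.sum_mul, c_sum]
    rw [Finset.sum_ite_eq' (Finset.range (m+4)) 0]
    rw [if_pos (Finset.mem_range.mpr (by omega)), one_mul]
  have hf1 : f m 1 ≥ 33/2 * n^3 := by
    rw [f_one]
    have : 0 ≤ n^2 := by positivity
    linarith
  have hfin : (N:ℝ) * (33/2 * n^3) ≤ 35/2 * n ^ 3 / ((m:ℝ) + 4) * (N:ℝ)^2
      + 85 * n^3 * μ * (N:ℝ)^2 := by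
    calc (N:ℝ) * (33/2 * n^3) ≤ (N:ℝ) * f m 1 := mul_le_mul_of_nonneg_left hf1 hN'.le
      _ ≤ _ := hlow.trans hup
  have hpos : 0 < (N:ℝ) * n^3 := by positivity
  have h5 : (N:ℝ) * n^3 * (33/2) ≤ (N:ℝ) * n^3 * ((N:ℝ) * (35/2 / ((m:ℝ) + 4) + 85 * μ)) := by
    calc (N:ℝ) * n^3 * (33/2) = (N:ℝ) * (33/2 * n^3) := by ring
      _ ≤ _ := hfin
      _ = _ := by ring
  exact le_of_mul_le_mul_left h5 hpos

end Pool.Agent.MP_9d12fbd9_an
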