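import Mathlib
import Pool.Agent.MP_9d12fbd9_an.LP
import Pool.Agent.MP_9d12fbd9_an.Defs

set_option autoImplicit false

open Filter Topology

namespace Pool.Agent.MP_9d12fbd9_an

lemma hasFDerivAt_single (ζ x : EuclideanSpace ℝ (Fin 3)) (h : ζ - x ≠ 0) :
    ∃ L : EuclideanSpace ℝ (Fin 3) →L[ℝ] ℝ,
      HasFDerivAt (fun x => 1 / ‖ζ - x‖) L x ∧ ‖L‖ ≤ 1 / ‖ζ - x‖ ^ 2 := by
  have h1 : HasFDerivAt (fun x : EuclideanSpace ℝ (Fin 3) => ζ - x)
      (-ContinuousLinearMap.id ℝ _) x := (hasFDerivAt_id x).const_sub ζ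
  have h2 := h1.norm_sq
  have hpos : 0 < ‖ζ - x‖ := norm_pos_iff.mpr h
  have h3 : HasDerivAt (fun t : ℝ => (Real.sqrt t)⁻¹)
      (-(1 / (2 * Real.sqrt (‖ζ - x‖^2))) / (Real.sqrt (‖ζ - x‖^2))^2) (‖ζ - x‖^2) := by
    have := (Real.hasDerivAt_sqrt (x := ‖ζ - x‖^2) (by positivity))
    exact this.fun_inv (by
      rw [Real.sqrt_sq hpos.le]; exact hpos.ne')
  have h4 := h3.comp_hasFDerivAt x h2
  refine ⟨_, h4.congr_of_eventuallyEq (Eventually.of_forall ?_), ?_⟩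
  · intro y
    simp only [Function.comp]
    rw [Real.sqrt_sq (norm_nonneg _), one_div]
  · rw [Real.sqrt_sq hpos.le, norm_smul]
    have h5 : ‖(2 • (innerSL ℝ (ζ - x)).comp (-ContinuousLinearMap.id ℝ (EuclideanSpace ℝ (Fin 3))))‖
        ≤ 2 * ‖ζ - x‖ := by
      refine ContinuousLinearMap.opNorm_le_bound _ (by positivity) ?_
      intro y
      simp only [smul_apply, ContinuousLinearMap.comp_apply, 
        neg_apply, ContinuousLinearMap.id_apply, innerSL_apply_apply, inner_neg_right]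
      rw [nsmul_eq_mul, norm_mul, norm_neg]
      have := norm_inner_le_norm (𝕜 := ℝ) (ζ - x) y
      have h2' : ‖((2:ℕ):ℝ)‖ = 2 := by norm_num
      rw [h2']
      nlinarith
    have h6 : ‖-(1 / (2 * ‖ζ - x‖)) / ‖ζ - x‖ ^ 2‖ = 1 / (2 * ‖ζ - x‖) / ‖ζ - x‖ ^ 2 := by
      rw [norm_div, norm_neg, Real.norm_of_nonneg (by positivity), Real.norm_of_nonneg (by positivity)]
    rw [h6]
    calc 1 / (2 * ‖ζ - x‖) / ‖ζ - x‖ ^ 2 * _ ≤ 1 / (2 * ‖ζ - x‖) / ‖ζ - x‖ ^ 2 * (2 * ‖ζ - x‖) :=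
          mul_le_mul_of_nonneg_left h5 (by positivity)
      _ = 1 / ‖ζ - x‖ ^ 2 := by field_simp

lemma hasFDerivAt_potential {N : ℕ} (hN : 0 < N) (Z : Fin N → EuclideanSpace ℝ (Fin 3))
    (hZ : ∀ j, ‖Z j‖ = 1) (x : EuclideanSpace ℝ (Fin 3)) (r : ℝ) (hx : ‖x‖ = r) (hr : r < 1) :
    ∃ L : EuclideanSpace ℝ (Fin 3) →L[ℝ] ℝ,
      HasFDerivAt (potential Z) L x ∧ ‖L‖ ≤ 1 / (1 - r) ^ 2 := by
  have hdist : ∀ j, 1 - r ≤ ‖Z j - x‖ := by
    intro j
    have := norm_sub_norm_le (Z j) x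
    rw [hZ, hx] at this
    exact this
  have hne : ∀ j, Z j - x ≠ 0 := by
    intro j h
    have := hdist j
    rw [h, norm_zero] at this
    linarith
  choose L hL1 hL2 using fun j => hasFDerivAt_single (Z j) x (hne j)
  refine ⟨(1 / (N:ℝ)) • ∑ j, L j, ?_, ?_⟩
  · unfold potential
    have := HasFDerivAt.fun_sum (u := Finset.univ) (fun j _ => hL1 j)
    exact this.const_mul _
  · rw [norm_smul]
    have hN' : (0:ℝ) < N := by exact_mod_cast hN
    rw [Real.norm_of_nonneg (by positivity)]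
    have h1 : ‖∑ j, L j‖ ≤ ∑ _j : Fin N, 1 / (1 - r)^2 := by
      refine (norm_sum_le _ _).trans (Finset.sum_le_sum ?_)
      intro j _
      refine (hL2 j).trans ?_
      apply one_div_le_one_div_of_le
      · have : 0 < 1 - r := by linarith
        positivity
      · have : 0 < 1 - r := by linarith
        exact pow_le_pow_left₀ this.le (hdist j) 2
    rw [Finset.sum_const, Finset.card_univ, Fintype.card_fin, nsmul_eq_mul] at h1
    calc 1 / (N:ℝ) * ‖∑ j, L j‖ ≤ 1 / (N:ℝ) * ((N:ℝ) * (1 / (1 - r)^2)) :=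
          mul_le_mul_of_nonneg_left h1 (by positivity)
      _ = _ := by field_simp

lemma norm_field_eq {N : ℕ} (Z : Fin N → EuclideanSpace ℝ (Fin 3))
    (x : EuclideanSpace ℝ (Fin 3)) (L : EuclideanSpace ℝ (Fin 3) →L[ℝ] ℝ)
    (h : HasFDerivAt (potential Z) L x) : ‖field Z x‖ = ‖L‖ := by
  unfold field gradient
  rw [norm_neg, LinearIsometryEquiv.norm_map, h.fderiv]

lemma norm_sub_smul {ζ ξ : EuclideanSpace ℝ (Fin 3)} (hζ : ‖ζ‖ = 1) (hξ : ‖ξ‖ = 1) (ρ : ℝ) :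
    ‖ζ - ρ • ξ‖ = Real.sqrt (1 - 2 * ρ * inner ℝ ξ ζ + ρ ^ 2) := by
  rw [← Real.sqrt_sq (norm_nonneg (ζ - ρ • ξ))]
  congr 1
  rw [norm_sub_sq_real, norm_smul, hζ, hξ, inner_smul_right, real_inner_comm]
  rw [Real.norm_eq_abs, mul_one, sq_abs]
  ring

lemma potential_ray {N : ℕ} (Z : Fin N → EuclideanSpace ℝ (Fin 3)) (hZ : ∀ j, ‖Z j‖ = 1)
    (i : Fin N) (ρ : ℝ) (hρ : |ρ| < 1) :
    potential Z (ρ • Z i) = (1 / (N:ℝ)) * ∑ j, G (inner ℝ (Z i) (Z j)) ρ := by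
  unfold potential
  congr 1
  apply Finset.sum_congr rfl
  intro j _
  have hs : |inner ℝ (Z i) (Z j)| ≤ 1 := by
    have := abs_real_inner_le_norm (Z i) (Z j)
    rw [hZ, hZ] at this
    linarith
  rw [norm_sub_smul (hZ j) (hZ i), G_eq _ hs ρ hρ, one_div]

/-- Radial derivative at the point `r ζ_i`. -/
lemma radial_bound {N : ℕ} (hN : 0 < N) (Z : Fin N → EuclideanSpace ℝ (Fin 3))
    (hZ : ∀ j, ‖Z j‖ = 1) (i : Fin N) (r : ℝ) (hr0 : 0 < r) (hr1 : r < 1) :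
    (1 / (N:ℝ)) * ∑ j, G' (inner ℝ (Z i) (Z j)) r ≤ ‖field Z (r • Z i)‖ := by
  have hx : ‖r • Z i‖ = r := by
    rw [norm_smul, hZ, mul_one, Real.norm_of_nonneg hr0.le]
  obtain ⟨L, hL1, _⟩ := hasFDerivAt_potential hN Z hZ (r • Z i) r hx hr1
  rw [norm_field_eq Z _ L hL1]
  have hs : ∀ j, |inner ℝ (Z i) (Z j)| ≤ 1 := by
    intro j
    have := abs_real_inner_le_norm (Z i) (Z j)
    rw [hZ, hZ] at this
    linarith
  have hr : |r| < 1 := by rw [abs_of_pos hr0]; exact hr1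
  have h1 : HasDerivAt (fun ρ : ℝ => (1 / (N:ℝ)) * ∑ j, G (inner ℝ (Z i) (Z j)) ρ)
      ((1 / (N:ℝ)) * ∑ j, G' (inner ℝ (Z i) (Z j)) r) r := by
    apply HasDerivAt.const_mul
    have := HasDerivAt.fun_sum (u := Finset.univ) (fun j _ => hasDerivAt_G _ (hs j) r hr)
    exact this
  have h2 : HasDerivAt (fun ρ : ℝ => ρ • Z i) (Z i) r := by
    have := (hasDerivAt_id r).smul_const (Z i)
    simpa using this
  have h3 : HasDerivAt (potential Z ∘ (fun ρ : ℝ => ρ • Z i)) (L (Z i)) r :=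
    HasFDerivAt.comp_hasDerivAt (l := potential Z) (l' := L) (f := fun ρ : ℝ => ρ • Z i) r hL1 h2
  have h4 : (potential Z ∘ (fun ρ : ℝ => ρ • Z i)) =ᶠ[𝓝 r]
      (fun ρ : ℝ => (1 / (N:ℝ)) * ∑ j, G (inner ℝ (Z i) (Z j)) ρ) := by
    have : ∀ᶠ ρ in 𝓝 r, |ρ| < 1 := by
      have hc : Continuous (fun ρ : ℝ => |ρ|) := continuous_abs
      exact (hc.tendsto r).eventually (gt_mem_nhds hr)
    filter_upwards [this] with ρ hρ
    exact potential_ray Z hZ i ρ hρ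
  have h5 := (h3.congr_of_eventuallyEq h4.symm).unique h1
  rw [← h5]
  calc L (Z i) ≤ ‖L (Z i)‖ := Real.le_norm_self _
    _ ≤ ‖L‖ * ‖Z i‖ := L.le_opNorm _
    _ = ‖L‖ := by rw [hZ, mul_one]

/-- Legendre moments are controlled by the field. -/
lemma moment_bound {N : ℕ} (hN : 0 < N) (Z : Fin N → EuclideanSpace ℝ (Fin 3))
    (hZ : ∀ j, ‖Z j‖ = 1) (r : ℝ) (hr0 : 0 < r) (hr1 : r < 1) (S : ℝ)
    (hS : ∀ i, ‖field Z (r • Z i)‖ ≤ S)
    (hpsd : ∀ k, 0 ≤ ∑ i, ∑ j, P k (inner ℝ (Z i) (Z j))) (k : ℕ) (hk : 1 ≤ k) :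
    ∑ i, ∑ j, P k (inner ℝ (Z i) (Z j)) ≤ S / r ^ (k - 1) * (N:ℝ)^2 := by
  have hN' : (0:ℝ) < N := by exact_mod_cast hN
  have hs : ∀ i j, |inner ℝ (Z i) (Z j)| ≤ 1 := by
    intro i j
    have := abs_real_inner_le_norm (Z i) (Z j)
    rw [hZ, hZ] at this
    linarith
  have hr : |r| < 1 := by rw [abs_of_pos hr0]; exact hr1
  have h1 : ∑ i, ∑ j, G' (inner ℝ (Z i) (Z j)) r ≤ S * (N:ℝ)^2 := by
    have : ∀ i, ∑ j, G' (inner ℝ (Z i) (Z j)) r ≤ S * (N:ℝ) := by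
      intro i
      have h := (radial_bound hN Z hZ i r hr0 hr1).trans (hS i)
      rw [one_div, inv_mul_le_iff₀ hN'] at h
      linarith
    calc ∑ i, ∑ j, G' (inner ℝ (Z i) (Z j)) r ≤ ∑ _i : Fin N, S * (N:ℝ) :=
          Finset.sum_le_sum (fun i _ => this i)
      _ = S * (N:ℝ)^2 := by simp; ring
  have h2 : HasSum (fun k : ℕ => ∑ i, ∑ j, P k (inner ℝ (Z i) (Z j)) * (k * r ^ (k - 1)))
      (∑ i, ∑ j, G' (inner ℝ (Z i) (Z j)) r) := by
    apply hasSum_sum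
    intro i _
    apply hasSum_sum
    intro j _
    exact (summable_aux' _ (hs i j) r hr).hasSum
  have h3 : ∑ i, ∑ j, P k (inner ℝ (Z i) (Z j)) * (k * r ^ (k - 1))
      ≤ ∑ i, ∑ j, G' (inner ℝ (Z i) (Z j)) r := by
    refine le_hasSum h2 k ?_
    intro l _
    have : ∑ i, ∑ j, P l (inner ℝ (Z i) (Z j)) * (l * r ^ (l - 1))
        = (∑ i, ∑ j, P l (inner ℝ (Z i) (Z j))) * (l * r ^ (l - 1)) := by
      rw [Finset.sum_mul]
      apply Finset.sum_congr rfl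
      intro i _
      rw [Finset.sum_mul]
    rw [this]
    exact mul_nonneg (hpsd l) (by positivity)
  have h4 : ∑ i, ∑ j, P k (inner ℝ (Z i) (Z j)) * (k * r ^ (k - 1))
        = (∑ i, ∑ j, P k (inner ℝ (Z i) (Z j))) * (k * r ^ (k - 1)) := by
    rw [Finset.sum_mul]
    apply Finset.sum_congr rfl
    intro i _
    rw [Finset.sum_mul]
  rw [h4] at h3
  have h5 : (∑ i, ∑ j, P k (inner ℝ (Z i) (Z j))) * r ^ (k-1)
      ≤ (∑ i, ∑ j, P k (inner ℝ (Z i) (Z j))) * (k * r ^ (k - 1)) := by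
    apply mul_le_mul_of_nonneg_left _ (hpsd k)
    have : (1:ℝ) ≤ k := by exact_mod_cast hk
    have h6 : 0 ≤ r ^ (k-1) := by positivity
    nlinarith
  have h6 : 0 < r ^ (k-1) := by positivity
  rw [div_mul_eq_mul_div, le_div_iff₀ h6]
  linarith

/-- The quantitative lower bound for one configuration. -/
lemma config_bound {N m : ℕ} (hN : 0 < N) (hm : 10000 ≤ m)
    (Z : Fin N → EuclideanSpace ℝ (Fin 3))
    (hZ : ∀ j, ‖Z j‖ = 1) (r : ℝ) (hr0 : 0 < r) (hr1 : r < 1) (S : ℝ) (hS0 : 0 ≤ S)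
    (hS : ∀ i, ‖field Z (r • Z i)‖ ≤ S) :
    33/2 ≤ (N:ℝ) * (35/2 / ((m:ℝ) + 4) + 85 * (S / r ^ (Real.sqrt (7/2 * ((m:ℝ) + 3))))) := by
  have hpsd : ∀ k, 0 ≤ ∑ i, ∑ j, P k (inner ℝ (Z i) (Z j)) := by
    intro k
    have hn2 : ∀ i, n2 (fun l => Z i l) = 1 := by
      intro i
      have h := EuclideanSpace.norm_sq_eq (Z i)
      rw [hZ i] at h
      unfold n2
      simp only [Real.norm_eq_abs, sq_abs] at h
      norm_num at h
      rw [h]
      apply Finset.sum_congr rfl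
      intro l _
      ring
    have h := legendre_psd Finset.univ (fun _ : Fin N => (1:ℝ)) (fun i l => Z i l) hn2 k
    have e : ∀ i j, inner ℝ (Z i) (Z j) = ∑ l, Z i l * Z j l := by
      intro i j
      rw [PiLp.inner_apply]
      apply Finset.sum_congr rfl
      intro l _
      simp [mul_comm]
    simp only [e]
    simpa using h
  apply lp_bound N m hN hm (fun i j => inner ℝ (Z i) (Z j))
  · intro i
    rw [real_inner_self_eq_norm_sq, hZ]; norm_num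
  · intro i j
    have := abs_real_inner_le_norm (Z i) (Z j)
    rw [hZ, hZ] at this
    linarith
  · exact hpsd
  · positivity
  · intro k hk hlt
    refine (moment_bound hN Z hZ r hr0 hr1 S hS hpsd k hk).trans ?_
    apply mul_le_mul_of_nonneg_right _ (by positivity)
    apply div_le_div_of_nonneg_left hS0
    · exact Real.rpow_pos_of_pos hr0 _
    · have h1 : ((k:ℝ)) ≤ Real.sqrt (7/2 * ((m:ℝ) + 3)) := by
        apply Real.le_sqrt_of_sq_le
        have : (0:ℝ) ≤ k := Nat.cast_nonneg k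
        nlinarith
      calc r ^ (Real.sqrt (7/2 * ((m:ℝ) + 3))) ≤ r ^ (((k - 1 : ℕ) : ℝ)) := by
            apply Real.rpow_le_rpow_of_exponent_ge hr0 hr1.le
            have : ((k - 1 : ℕ) : ℝ) ≤ (k:ℝ) := by exact_mod_cast Nat.sub_le k 1
            linarith
        _ = r ^ (k - 1) := Real.rpow_natCast _ _

end Pool.Agent.MP_9d12fbd9_an
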